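import Mathlib
import Pool.Agent.H.MP_02a275_nt.Main

namespace Pool.Agent.Results.MP_02a275_nt.Array

/-- the integer module generated by the 2-kernel is finitely generated -/
def Reg (a : ℕ → ℤ) : Prop :=
  (Submodule.span ℤ
    {s : ℕ → ℤ | ∃ e r : ℕ, r < 2 ^ e ∧ s = fun n => a (2 ^ e * n + r)}).FG

/-- 2-regular arrays -/
def Reg2 (c : ℕ → ℕ → ℤ) : Prop :=
  ∃ S : Finset (ℕ → ℕ → ℤ), ∀ e r t : ℕ, r < 2 ^ e → t < 2 ^ e →
    (fun m n => c (2 ^ e * m + r) (2 ^ e * n + t)) ∈ Submodule.span ℤ (S : Set (ℕ → ℕ → ℤ))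

/-- restriction to the diagonal -/
def diag : (ℕ → ℕ → ℤ) →ₗ[ℤ] (ℕ → ℤ) where
  toFun c := fun n => c n n
  map_add' _ _ := rfl
  map_smul' _ _ := rfl

theorem result : ∃ a b : ℕ → ℕ, Reg (fun n => (a n : ℤ)) ∧ Reg (fun n => (b n : ℤ)) ∧
    ¬ Reg2 (fun i j => ((a i ^^^ b j : ℕ) : ℤ)) := by
  refine ⟨Pool.Agent.H.MP_02a275_nt.A, Pool.Agent.H.MP_02a275_nt.B,
    Pool.Agent.H.MP_02a275_nt.regA, Pool.Agent.H.MP_02a275_nt.regB, ?_⟩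
  rintro ⟨S, hS⟩
  have hlt : ∀ k : ℕ, 2 ^ k - 1 < 2 ^ k := fun k => Nat.sub_lt (by positivity) one_pos
  refine Pool.Agent.H.MP_02a275_nt.not_fg
    ((Submodule.span ℤ (S : Set (ℕ → ℕ → ℤ))).map diag)
    ((Submodule.fg_span S.finite_toSet).map diag) (fun k => ?_)
  exact ⟨_, hS k _ _ (hlt k) (hlt k), rfl⟩

end Pool.Agent.Results.MP_02a275_nt.Array
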