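import Mathlib
import Pool.Agent.H.MP_02a275_nt.Main

namespace Pool.Agent.Results.MP_02a275_nt.Sequence

/-- the integer module generated by the 2-kernel is finitely generated -/
def Reg (a : ℕ → ℤ) : Prop :=
  (Submodule.span ℤ
    {s : ℕ → ℤ | ∃ e r : ℕ, r < 2 ^ e ∧ s = fun n => a (2 ^ e * n + r)}).FG

theorem result : ∃ a b : ℕ → ℕ, Reg (fun n => (a n : ℤ)) ∧ Reg (fun n => (b n : ℤ)) ∧
    ¬ Reg (fun n => ((a n ^^^ b n : ℕ) : ℤ)) := by
  refine ⟨Pool.Agent.H.MP_02a275_nt.A, Pool.Agent.H.MP_02a275_nt.B,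
    Pool.Agent.H.MP_02a275_nt.regA, Pool.Agent.H.MP_02a275_nt.regB, fun h => ?_⟩
  exact Pool.Agent.H.MP_02a275_nt.not_fg _ h (fun k => Submodule.subset_span
    ⟨k, 2 ^ k - 1, Nat.sub_lt (by positivity) one_pos, rfl⟩)

end Pool.Agent.Results.MP_02a275_nt.Sequence
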